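import Pool.Agent.Helper76.T3.StU

/-!
# Project T3: module O1S3 (odd exponent with signs: injection into `antiO3S k`, hexagon relation)
-/

set_option autoImplicit false

namespace Pool.Agent.Helper73.T3

open Pool.Agent.Helper76.T3 Pool.Agent.Helper14.T3
open Pool.Agent.Helper14.W3 Pool.Agent.Helper78.W3
open Pool.Agent.Helper76.TX (Sg)
open Pool.Agent.Helper14.CV (Homog EqC act Tl StFar)

private lemma three_pow_z (k : ℕ) : (3 : ZMod (3 ^ k)) ^ k = 0 := by
  have := ZMod.natCast_self (3 ^ k)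
  push_cast at this
  exact this

private lemma unit13 (k : ℕ) (y : ZMod (3 ^ k)) : IsUnit (1 + 3 * y) := by
  have h : IsNilpotent (3 * y) := ⟨k, by rw [mul_pow, three_pow_z, zero_mul]⟩
  exact h.isUnit_one_add

private lemma unit23 (k : ℕ) (y : ZMod (3 ^ k)) : IsUnit (2 + 3 * y) := by
  have h := (unit13 k (-(y + 1))).neg
  have e : -(1 + 3 * -(y + 1)) = 2 + 3 * y := by ring
  rwa [e] at h

private lemma inv13 (k : ℕ) (y : ZMod (3 ^ k)) : (1 + 3 * y)⁻¹ * (1 + 3 * y) = 1 :=
  ZMod.inv_mul_of_unit _ (unit13 k y)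

private lemma inv23 (k : ℕ) (y : ZMod (3 ^ k)) : (2 + 3 * y)⁻¹ * (2 + 3 * y) = 1 :=
  ZMod.inv_mul_of_unit _ (unit23 k y)

private lemma third {k : ℕ} (hk : 1 ≤ k) {m : ℤ} (hm : (3 : ℤ) ∣ m) :
    (3 : ZMod (3 ^ k)) ^ (k - 1) * (m : ZMod (3 ^ k)) = 0 := by
  obtain ⟨j, hj⟩ := hm
  have e : (3 : ZMod (3 ^ k)) ^ (k - 1) * (m : ZMod (3 ^ k)) =
      (3 : ZMod (3 ^ k)) ^ k * (j : ZMod (3 ^ k)) := by
    have h1 : (3 : ZMod (3 ^ k)) ^ k = 3 ^ (k - 1) * 3 := by
      rw [← pow_succ]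
      congr 1
      omega
    rw [h1, hj]
    push_cast
    ring
  rw [e, three_pow_z, zero_mul]

/-- the diagonal modulo 3 -/
private lemma diag3 {a b c d : ℤ} (h : a * d - 3 ^ (0 + 1) * b * c = 1) : (3 : ℤ) ∣ d - a := by
  have h1 : (a * d) % 3 = 1 := by
    have e : a * d = 1 + 3 * (b * c) := by linear_combination h
    rw [e]
    omega
  rw [Int.mul_emod] at h1
  have ha : a % 3 = 0 ∨ a % 3 = 1 ∨ a % 3 = 2 := by omega
  have hd : d % 3 = 0 ∨ d % 3 = 1 ∨ d % 3 = 2 := by omega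
  rcases ha with ha | ha | ha <;> rcases hd with hd | hd | hd <;> rw [ha, hd] at h1 <;> omega

private lemma unit_ad {k : ℕ} {a b c d : ℤ} (h : a * d - 3 * b * c = 1) :
    IsUnit ((a : ℤ) : ZMod (3 ^ k)) ∧ IsUnit ((d : ℤ) : ZMod (3 ^ k)) := by
  have h1 := unit13 k ((b : ZMod (3 ^ k)) * (c : ZMod (3 ^ k)))
  have e : (1 : ZMod (3 ^ k)) + 3 * ((b : ZMod (3 ^ k)) * (c : ZMod (3 ^ k))) =
      (a : ZMod (3 ^ k)) * (d : ZMod (3 ^ k)) := by
    have h2 : a * d = 1 + 3 * (b * c) := by linear_combination h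
    have h3 := congrArg (fun n : ℤ => (n : ZMod (3 ^ k))) h2
    push_cast at h3
    exact h3.symm
  rw [e] at h1
  exact ⟨isUnit_of_mul_isUnit_left h1, isUnit_of_mul_isUnit_right h1⟩

private lemma ne1 {a b c d : ℤ} (h1 : a * d - 3 ^ (0 + 1) * b * c = 1) : a ≠ 0 ∨ 3 * c ≠ 0 := by
  by_contra hc
  push Not at hc
  rw [hc.1] at h1
  have : 3 ^ (0 + 1) * b * c = b * (3 * c) := by ring
  rw [this, hc.2] at h1
  norm_num at h1

private lemma ne2 {a b c d : ℤ} (h1 : a * d - 3 ^ (0 + 1) * b * c = 1) : b ≠ 0 ∨ d ≠ 0 := by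
  by_contra hc
  push Not at hc
  rw [hc.1, hc.2] at h1
  norm_num at h1

private lemma zs (w : ℤ) (G : ℤ → ℤ → ℂ) (p q : ℤ) : (w • G) p q = (w : ℂ) * G p q := by
  rw [Pi.smul_apply, Pi.smul_apply, zsmul_eq_mul]

private lemma sg_sq {w : ℤ} (h : Sg w) : (w : ℂ) * (w : ℂ) = 1 := by
  rcases h with rfl | rfl <;> norm_num

theorem hO1S3 (hEdg : S3Edg) (hPlA : S3PlA) (hFar : StFar) : O1S3 := by
  intro w ε k G hw hε hk hG
  obtain ⟨hS, hP1, hP2, hW, hst⟩ := hG
  have hom := hS.1
  have neg : ∀ p q : ℤ, (p ≠ 0 ∨ q ≠ 0) → G (-p) (-q) = G p q := by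
    intro p q hpq
    have := hom (-1) p q (by norm_num) hpq
    rw [← this]
    congr 1 <;> ring
  have val : ∀ (x y : ZMod (3 ^ k)) (a b c d : ℤ), Pl3 0 a b c d x y →
      edge3 0 1 0 0 1 G x y = G a (3 * c) - G b d := by
    intro x y a b c d h
    have := hEdg ℂ inferInstance 0 k k G hS 1 0 0 1 (Or.inl one_ne_zero) (Or.inr one_ne_zero) x y
      a b c d h
    simpa using this
  have exP : ∀ x y : ZMod (3 ^ k), ∃ a b c d : ℤ, Pl3 0 a b c d x y := fun x y =>
    ⟨_, _, _, _, hPlA 0 k k x y⟩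
  -- the four symmetries
  have s4 : ∀ x y : ZMod (3 ^ k), edge3 0 1 0 0 1 G (-x) (-y) = (ε : ℂ) * edge3 0 1 0 0 1 G x y := by
    intro x y
    obtain ⟨a, b, c, d, h⟩ := exP x y
    have h' : Pl3 0 a (-b) (-c) d (-x) (-y) := by
      obtain ⟨h1, h2, h3⟩ := h
      refine ⟨by linear_combination h1, ?_, ?_⟩
      · push_cast
        rw [h2]
        ring
      · push_cast
        rw [h3]
        ring
    rw [val _ _ _ _ _ _ h, val _ _ _ _ _ _ h']
    obtain ⟨h1, -, -⟩ := h
    have n1 := ne1 h1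
    have n2 := ne2 h1
    have e := hst.diff n1 n2
    unfold act at e
    have e1 : G a (3 * -c) = G (-1 * a + 0 * (3 * c)) (0 * a + 1 * (3 * c)) := by
      have := neg a (3 * -c) (by
        rcases n1 with h | h
        · exact Or.inl h
        · right
          intro h'
          apply h
          linarith)
      rw [← this]
      congr 1 <;> ring
    have e2 : G (-b) d = G (-1 * b + 0 * d) (0 * b + 1 * d) := by
      congr 1 <;> ring
    rw [e1, e2, e]
    simp only [zs]
    ring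
  have sW : ∀ x y : ZMod (3 ^ k), edge3 0 1 0 0 1 G (-y) (-x) = (w : ℂ) * edge3 0 1 0 0 1 G x y := by
    intro x y
    obtain ⟨a, b, c, d, h⟩ := exP x y
    have h' : Pl3 0 d (-c) (-b) a (-y) (-x) := by
      obtain ⟨h1, h2, h3⟩ := h
      refine ⟨by linarith, ?_, ?_⟩
      · push_cast
        rw [h3]
        ring
      · push_cast
        rw [h2]
        ring
    rw [val _ _ _ _ _ _ h, val _ _ _ _ _ _ h']
    obtain ⟨h1, -, -⟩ := h
    have n1 := ne1 h1
    have n2 := ne2 h1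
    have e := hW.diff n2 n1
    unfold act at e
    have e1 : G d (3 * -b) = G (0 * b + -1 * d) (3 * b + 0 * d) := by
      have := neg d (3 * -b) (by
        rcases n2 with h | h
        · right
          intro h'
          apply h
          linarith
        · exact Or.inl h)
      rw [← this]
      congr 1 <;> ring
    have e2 : G (-c) a = G (0 * a + -1 * (3 * c)) (3 * a + 0 * (3 * c)) := by
      have := hom 3 (-c) a (by norm_num) (by
        rcases n1 with h | h
        · exact Or.inr h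
        · left
          intro h'
          apply h
          linarith)
      rw [← this]
      congr 1 <;> ring
    rw [e1, e2, e]
    simp only [Pi.neg_apply, zs]
    ring
  have s3 : ∀ x y : ZMod (3 ^ k), edge3 0 1 0 0 1 G y x =
      ((w * ε : ℤ) : ℂ) * edge3 0 1 0 0 1 G x y := by
    intro x y
    have h1 := s4 y x
    rw [sW x y] at h1
    have h2 := sg_sq hε
    push_cast
    linear_combination (-(edge3 0 1 0 0 1 G y x)) * h2 - (ε : ℂ) * h1
  have s1 : ∀ x y : ZMod (3 ^ k), edge3 0 1 0 0 1 G x y + edge3 0 1 0 0 1 G (x + 3 ^ (k - 1)) y +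
      edge3 0 1 0 0 1 G (x + 2 * 3 ^ (k - 1)) y = 0 := by
    intro x y
    obtain ⟨a, b, c, d, h⟩ := exP x y
    have h' : ∀ j : ℤ, Pl3 0 (a + j * 3 ^ (k - 1) * (3 * c)) (b + j * 3 ^ (k - 1) * d) c d
        (x + (j : ZMod (3 ^ k)) * 3 ^ (k - 1)) y := by
      intro j
      obtain ⟨h1, h2, h3⟩ := h
      have he := third hk (diag3 h1)
      have he2 : (3 : ZMod (3 ^ k)) ^ (k - 1) * ((3 * c : ℤ) : ZMod (3 ^ k)) = 0 :=
        third hk (dvd_mul_right 3 c)
      refine ⟨by linear_combination h1, ?_, h3⟩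
      push_cast at he he2 ⊢
      rw [h2]
      linear_combination (j : ZMod (3 ^ k)) * he -
        (x + (j : ZMod (3 ^ k)) * 3 ^ (k - 1)) * (j : ZMod (3 ^ k)) * he2
    have v1 := val _ _ _ _ _ _ (h' 1)
    have v2 := val _ _ _ _ _ _ (h' 2)
    push_cast at v1 v2
    rw [one_mul] at v1
    rw [v1, v2, val _ _ _ _ _ _ h]
    obtain ⟨h1, -, -⟩ := h
    have e := hP1.diff (ne1 h1) (ne2 h1)
    simp only [Pi.add_apply, Pi.zero_apply, act] at e
    have r1 : G (1 * a + 3 ^ (k - 1) * (3 * c)) (0 * a + 1 * (3 * c)) =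
        G (a + 1 * 3 ^ (k - 1) * (3 * c)) (3 * c) := by
      congr 1 <;> ring
    have r2 : G (1 * a + 2 * 3 ^ (k - 1) * (3 * c)) (0 * a + 1 * (3 * c)) =
        G (a + 2 * 3 ^ (k - 1) * (3 * c)) (3 * c) := by
      congr 1 <;> ring
    have r3 : G (1 * b + 3 ^ (k - 1) * d) (0 * b + 1 * d) = G (b + 1 * 3 ^ (k - 1) * d) d := by
      congr 1 <;> ring
    have r4 : G (1 * b + 2 * 3 ^ (k - 1) * d) (0 * b + 1 * d) =
        G (b + 2 * 3 ^ (k - 1) * d) d := by
      congr 1 <;> ring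
    rw [r1, r2, r3, r4] at e
    linear_combination e
  have s2 : ∀ x y : ZMod (3 ^ k), edge3 0 1 0 0 1 G x y + edge3 0 1 0 0 1 G x (y + 3 ^ (k - 1)) +
      edge3 0 1 0 0 1 G x (y + 2 * 3 ^ (k - 1)) = 0 := by
    intro x y
    rw [s3 y x, s3 (y + 3 ^ (k - 1)) x, s3 (y + 2 * 3 ^ (k - 1)) x, ← mul_add, ← mul_add, s1,
      mul_zero]
  refine ⟨fun x y => ⟨s1 x y, s2 x y, s3 x y, s4 x y⟩, ?_, ?_⟩
  · funext x y
    obtain ⟨a, b, c, d, h⟩ := exP x y
    obtain ⟨h1, h2, h3⟩ := h
    have ix := inv13 k x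
    have iy := inv13 k y
    have jx := inv23 k x
    have jy := inv23 k y
    have p1 : Pl3 0 (-(a + 3 * b)) (a + 2 * b) (-(c + d)) (3 * c + 2 * d) (rr x) (ss y) := by
      unfold rr ss
      refine ⟨by linear_combination h1, ?_, ?_⟩
      · push_cast
        rw [h2]
        linear_combination (-((1 + 2 * x) * (a : ZMod (3 ^ k)))) * ix
      · push_cast
        rw [h3]
        linear_combination ((1 + y) * (d : ZMod (3 ^ k))) * jy
    have p2 : Pl3 0 (2 * a + 3 * b) (-(a + b)) (2 * c + d) (-(3 * c + d)) (ss x) (rr y) := by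
      unfold rr ss
      refine ⟨by linear_combination h1, ?_, ?_⟩
      · push_cast
        rw [h2]
        linear_combination ((1 + x) * (a : ZMod (3 ^ k))) * jx
      · push_cast
        rw [h3]
        linear_combination (-((1 + 2 * y) * (d : ZMod (3 ^ k)))) * iy
    have p3 : Pl3 0 a (a + b) c (3 * c + d) (x + 1) (y * (1 + 3 * y)⁻¹) := by
      refine ⟨by linear_combination h1, ?_, ?_⟩
      · push_cast
        rw [h2]
        ring
      · push_cast
        rw [h3]
        linear_combination (-(y * (d : ZMod (3 ^ k)))) * iy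
    have p4 : Pl3 0 (a + 3 * b) b (c + d) d (x * (1 + 3 * x)⁻¹) (y + 1) := by
      refine ⟨by linear_combination h1, ?_, ?_⟩
      · push_cast
        rw [h2]
        linear_combination (-(x * (a : ZMod (3 ^ k)))) * ix
      · push_cast
        rw [h3]
        ring
    have p5 : Pl3 0 (2 * a + 3 * b) (a + 2 * b) (2 * c + d) (3 * c + 2 * d) (v3 x) (v3 y) := by
      unfold v3
      refine ⟨by linear_combination h1, ?_, ?_⟩
      · push_cast
        rw [h2]
        linear_combination (-((1 + 2 * x) * (a : ZMod (3 ^ k)))) * jx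
      · push_cast
        rw [h3]
        linear_combination (-((1 + 2 * y) * (d : ZMod (3 ^ k)))) * jy
    change edge3 0 1 0 0 1 G x y + edge3 0 1 0 0 1 G (rr x) (ss y)
      + edge3 0 1 0 0 1 G (ss x) (rr y) - edge3 0 1 0 0 1 G (x + 1) (y * (1 + 3 * y)⁻¹)
      - edge3 0 1 0 0 1 G (x * (1 + 3 * x)⁻¹) (y + 1) - edge3 0 1 0 0 1 G (v3 x) (v3 y) = 0
    rw [val _ _ _ _ _ _ p1, val _ _ _ _ _ _ p2, val _ _ _ _ _ _ p3, val _ _ _ _ _ _ p4,
      val _ _ _ _ _ _ p5, val _ _ _ _ _ _ ⟨h1, h2, h3⟩]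
    have e1 : G (-(a + b)) (-(3 * c + d)) = G (a + b) (3 * c + d) := by
      apply neg
      by_contra hc
      push Not at hc
      have : a * d - 3 ^ (0 + 1) * b * c = a * (3 * c + d) - 3 * c * (a + b) := by ring
      rw [this, hc.1, hc.2] at h1
      norm_num at h1
    have e2 : G (-(a + 3 * b)) (3 * -(c + d)) = G (a + 3 * b) (3 * (c + d)) := by
      have h5 := neg (a + 3 * b) (3 * (c + d)) (by
        by_contra hc
        push Not at hc
        have : a * d - 3 ^ (0 + 1) * b * c = (a + 3 * b) * d - b * (3 * (c + d)) := by ring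
        rw [this, hc.1, hc.2] at h1
        norm_num at h1)
      rw [← h5]
      congr 1
      ring
    rw [e1, e2]
    ring
  · intro h0
    have key : ∀ a b c d : ℤ, a * d - 3 * b * c = 1 → G a (3 * c) = G b d := by
      intro a b c d h
      obtain ⟨ha, hd⟩ := unit_ad (k := k) h
      have ua := ZMod.inv_mul_of_unit _ ha
      have ud := ZMod.inv_mul_of_unit _ hd
      have hp : Pl3 0 a b c d ((b : ZMod (3 ^ k)) * ((a : ZMod (3 ^ k)))⁻¹)
          ((c : ZMod (3 ^ k)) * ((d : ZMod (3 ^ k)))⁻¹) := by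
        refine ⟨by linear_combination h, ?_, ?_⟩
        · rw [mul_assoc, ua, mul_one]
        · rw [mul_assoc, ud, mul_one]
      have e := val _ _ _ _ _ _ hp
      rw [h0] at e
      exact (sub_eq_zero.1 e.symm)
    apply hFar ℂ inferInstance G hom
    intro a b c d h
    have hac : a ≠ 0 ∨ c ≠ 0 := by
      by_contra hc
      push Not at hc
      rw [hc.1, hc.2] at h
      norm_num at h
    have hcases : (3 : ℤ) ∣ c ∨ (3 : ℤ) ∣ d ∨ (3 : ℤ) ∣ c + d ∨ (3 : ℤ) ∣ c - d := by
      have h5 : c % 3 = 0 ∨ c % 3 = 1 ∨ c % 3 = 2 := by omega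
      have h6 : d % 3 = 0 ∨ d % 3 = 1 ∨ d % 3 = 2 := by omega
      rcases h5 with h5 | h5 | h5 <;> rcases h6 with h6 | h6 | h6 <;> omega
    rcases hcases with hc | hc | hc | hc
    · obtain ⟨c', rfl⟩ := hc
      exact key a b c' d (by linear_combination h)
    · obtain ⟨d', rfl⟩ := hc
      have := key b (-a) d' (-c) (by linear_combination h)
      rw [this, neg a c hac]
    · obtain ⟨e', he'⟩ := hc
      have k1 := key (a + b) b e' d (by linear_combination h + b * he')
      have k2 := key (a + b) (-a) e' (-c) (by linear_combination h - a * he')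
      rw [← k1, k2, neg a c hac]
    · obtain ⟨e', he'⟩ := hc
      have k1 := key (a - b) b e' d (by linear_combination h + b * he')
      have k2 := key (a - b) a e' c (by linear_combination h + a * he')
      rw [← k1, k2]

end Pool.Agent.Helper73.T3
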